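import Pool.Agent.EFA.Stmts

/-!
Row SPR of the squad EFA (MP_f28000_lc): a sparse computable sequence.
-/

set_option autoImplicit false

namespace Pool.Agent.EFA.H59

/-- the sum of the values of `N` on the pairs with code `< t` -/
def sm (N : ℕ → ℕ → ℕ) (t : ℕ) : ℕ :=
  Nat.rec 0 (fun w ih => ih + N (Nat.unpair w).1 (Nat.unpair w).2) t

theorem sm_succ (N : ℕ → ℕ → ℕ) (t : ℕ) :
    sm N (t + 1) = sm N t + N (Nat.unpair t).1 (Nat.unpair t).2 := rfl

theorem sm_mono (N : ℕ → ℕ → ℕ) : Monotone (sm N) := by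
  refine monotone_nat_of_le_succ fun t => ?_
  rw [sm_succ]
  exact Nat.le_add_right _ _

theorem le_sm (N : ℕ → ℕ → ℕ) (j y : ℕ) : N j y ≤ sm N (Nat.pair j y + 1) := by
  rw [sm_succ, Nat.unpair_pair]
  exact Nat.le_add_left _ _

theorem sm_comp {N : ℕ → ℕ → ℕ} (hN : Computable₂ N) : Computable (sm N) := by
  have h1 : Computable₂ (fun (_ : ℕ) (p : ℕ × ℕ) =>
      p.2 + N (Nat.unpair p.1).1 (Nat.unpair p.1).2) := by
    have h2 : Computable fun q : ℕ × (ℕ × ℕ) => Nat.unpair q.2.1 :=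
      Primrec.unpair.to_comp.comp (Computable.fst.comp Computable.snd)
    have h3 : Computable fun q : ℕ × (ℕ × ℕ) =>
        N (Nat.unpair q.2.1).1 (Nat.unpair q.2.1).2 :=
      hN.comp (Computable.fst.comp h2) (Computable.snd.comp h2)
    exact Primrec.nat_add.to_comp.comp (Computable.snd.comp Computable.snd) h3
  exact Computable.nat_rec Computable.id (Computable.const 0) h1

/-- the sequence -/
def sq (N : ℕ → ℕ → ℕ) (k : ℕ) : ℕ :=
  Nat.rec 0 (fun k rk => rk + 2 + sm N (Nat.pair (2 ^ (rk + 1)) k + 1)) k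

theorem sq_succ (N : ℕ → ℕ → ℕ) (k : ℕ) :
    sq N (k + 1) = sq N k + 2 + sm N (Nat.pair (2 ^ (sq N k + 1)) k + 1) := rfl

theorem pow_comp : Computable fun n : ℕ => 2 ^ n := by
  have h0 : Computable₂ (fun (_ : ℕ) (p : ℕ × ℕ) => 2 * p.2) :=
    Primrec.nat_mul.to_comp.comp (Computable.const 2) (Computable.snd.comp Computable.snd)
  have h1 : Computable fun n : ℕ => Nat.rec (motive := fun _ => ℕ) 1 (fun _ ih => 2 * ih) n :=
    Computable.nat_rec Computable.id (Computable.const 1) h0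
  refine h1.of_eq fun n => ?_
  induction n with
  | zero => rfl
  | succ n ih =>
    change 2 * _ = _
    rw [ih, pow_succ]
    ring

theorem sq_comp {N : ℕ → ℕ → ℕ} (hN : Computable₂ N) : Computable (sq N) := by
  have h1 : Computable₂ (fun (_ : ℕ) (p : ℕ × ℕ) =>
      p.2 + 2 + sm N (Nat.pair (2 ^ (p.2 + 1)) p.1 + 1)) := by
    have h2 : Computable fun q : ℕ × (ℕ × ℕ) => q.2.2 := Computable.snd.comp Computable.snd
    have h3 : Computable fun q : ℕ × (ℕ × ℕ) => q.2.1 := Computable.fst.comp Computable.snd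
    have h4 : Computable fun q : ℕ × (ℕ × ℕ) => 2 ^ (q.2.2 + 1) :=
      pow_comp.comp (Primrec.succ.to_comp.comp h2)
    have h5 : Computable fun q : ℕ × (ℕ × ℕ) => Nat.pair (2 ^ (q.2.2 + 1)) q.2.1 + 1 :=
      Primrec.succ.to_comp.comp (Primrec₂.natPair.to_comp.comp h4 h3)
    have h6 : Computable fun q : ℕ × (ℕ × ℕ) => q.2.2 + 2 :=
      Primrec.succ.to_comp.comp (Primrec.succ.to_comp.comp h2)
    exact Primrec.nat_add.to_comp.comp h6 ((sm_comp hN).comp h5)
  exact Computable.nat_rec Computable.id (Computable.const 0) h1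

theorem pair_mono {a b c d : ℕ} (h1 : a ≤ c) (h2 : b ≤ d) : Nat.pair a b ≤ Nat.pair c d := by
  have h3 : Nat.pair a b ≤ Nat.pair c b := by
    rcases h1.lt_or_eq with h | h
    · exact (Nat.pair_lt_pair_left b h).le
    · rw [h]
  have h4 : Nat.pair c b ≤ Nat.pair c d := by
    rcases h2.lt_or_eq with h | h
    · exact (Nat.pair_lt_pair_right c h).le
    · rw [h]
  exact h3.trans h4

theorem spr : SprStmt := by
  intro N hN
  refine ⟨sq N, sq_comp hN, fun k => ?_, fun k j y hj hy => ?_⟩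
  · rw [sq_succ]
    exact Nat.le_add_right _ _
  · rw [sq_succ]
    have h1 := le_sm N j y
    have h2 : sm N (Nat.pair j y + 1) ≤ sm N (Nat.pair (2 ^ (sq N k + 1)) k + 1) :=
      sm_mono N (Nat.succ_le_succ (pair_mono hj.le hy))
    omega

end Pool.Agent.EFA.H59

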